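import Mathlib
import Pool.Agent.K9h56.CX.Main

/-!
# For almost all `k` the cycles of the `3x+k` map have complex parity words

The parity word of a cycle with `p` elements is cut into words with small periods (for instance, the
`2 m` runs of an `m`-cycle), or into phrases in the sense of Lempel and Ziv (each phrase is a copy of an
earlier part of the word, plus one letter). For almost all `k`, an orbit of the `3x+k` map which ends in a
cycle with few periodic pieces or few phrases, of whatever length, consists of multiples of a large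
divisor of `k`, that is, it is induced from a map with a much smaller parameter.

Proof. The number of elements of a cycle is bounded in terms of the number of pieces or phrases and of
`log |k|`: for the pieces by the subspace theorem (the starting theorem behind `PiecesUniformInK`), for
the phrases by a growth argument and the linear forms in `log 2`, `log 3`. The cycles with few elements
are treated by the method of `ShortCyclesAlmostAllK`.
-/

set_option autoImplicit false

namespace Pool.Agent.Results.MP_7f88e4_nt.ComplexCyclesAlmostAllK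

open Filter

/-- The `3x+k` map on the integers. -/
def T (k x : ℤ) : ℤ := if x % 2 = 0 then x / 2 else (3 * x + k) / 2

/-- The parities of the terms of the orbit of `y`. -/
def par (k y : ℤ) (i : ℕ) : ℤ := (T k)^[i] y % 2

/-- The word `w 0, ..., w (n-1)` is a concatenation of `m` words (cut at `0 = t 0 ≤ t 1 ≤ ... ≤ t m = n`)
each of which has a period `π` with `1 ≤ π ≤ ℓ`. -/
def Pieces (w : ℕ → ℤ) (n ℓ m : ℕ) : Prop :=
  ∃ t : ℕ → ℕ, t 0 = 0 ∧ t m = n ∧ (∀ i < m, t i ≤ t (i + 1)) ∧
    ∀ i < m, ∃ π, 1 ≤ π ∧ π ≤ ℓ ∧ ∀ j, t i ≤ j → j + π < t (i + 1) → w (j + π) = w j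

/-- The word `w 0, ..., w (n-1)` is the concatenation of `z` nonempty phrases (cut at
`0 = t 0 < t 1 < ... < t z = n`), each of which consists of one letter, or is such that the word which
remains if its last letter is deleted occurs in `w` also from an earlier position `j < t s` on (the two
occurrences may overlap). -/
def Phrases (w : ℕ → ℤ) (n z : ℕ) : Prop :=
  ∃ t : ℕ → ℕ, t 0 = 0 ∧ t z = n ∧ ∀ s < z, t s < t (s + 1) ∧
    (t (s + 1) = t s + 1 ∨ ∃ j < t s, ∀ i, t s + i + 1 < t (s + 1) → w (t s + i) = w (j + i))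

/-- The orbit of `x` under the `3x+k` map ends in a cycle with `p` elements, one of which is `y`. -/
def EndsAt (k x y : ℤ) (p : ℕ) : Prop :=
  1 ≤ p ∧ Function.minimalPeriod (T k) y = p ∧ ∃ j : ℕ, (T k)^[j] x = y

/-- The orbit of `x` ends in a cycle whose parity word (from some element on) is a concatenation of `m`
words with periods at most `ℓ`. -/
def EndsInPieces (k x : ℤ) (ℓ m : ℕ) : Prop :=
  ∃ (y : ℤ) (p : ℕ), EndsAt k x y p ∧ Pieces (par k y) p ℓ m

/-- The orbit of `x` ends in a cycle whose parity word, from an element of least absolute value on, is a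
concatenation of `z` phrases. -/
def EndsInPhrases (k x : ℤ) (z : ℕ) : Prop :=
  ∃ (y : ℤ) (p : ℕ), EndsAt k x y p ∧ (∀ i : ℕ, |y| ≤ |(T k)^[i] y|) ∧ Phrases (par k y) p z

lemma pieces_iff {k x : ℤ} {ℓ m : ℕ} : EndsInPieces k x ℓ m ↔ K9h56.CX.InPieces k x ℓ m := by
  constructor
  · rintro ⟨y, p, ⟨hp, hy, j, rfl⟩, h⟩
    exact ⟨j, p, hp, hy, h⟩
  · rintro ⟨j, p, hp, hy, h⟩
    exact ⟨_, p, ⟨hp, hy, j, rfl⟩, h⟩

lemma phrases_iff {k x : ℤ} {z : ℕ} : EndsInPhrases k x z ↔ K9h56.CX.InPhrases k x z := by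
  constructor
  · rintro ⟨y, p, ⟨hp, hy, j, rfl⟩, hm, h⟩
    exact ⟨j, p, hp, hy, hm, h⟩
  · rintro ⟨j, p, hp, hy, hm, h⟩
    exact ⟨_, p, ⟨hp, hy, j, rfl⟩, hm, h⟩

/-- For all `ε, δ > 0` there is `η > 0` such that for all `C`, for all large `X` and all but `ε X` of the
`k` prime to `6` with `|k| ≤ X`: if the orbit of `x` ends in a cycle whose parity word is a concatenation of
at most `C log X` words with periods at most `X ^ η`, or of at most `η log X` phrases, then
`gcd (x, k) ≥ X ^ (1 - δ)`. -/
theorem result :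
    ∀ ε δ : ℝ, 0 < ε → 0 < δ → ∃ η : ℝ, 0 < η ∧ ∀ C : ℝ, ∀ᶠ X : ℝ in atTop,
      (({k : ℤ | |(k : ℝ)| ≤ X ∧ IsCoprime k 6 ∧ ∃ x : ℤ,
        ((∃ ℓ m : ℕ, (ℓ : ℝ) ≤ X ^ η ∧ (m : ℝ) ≤ C * Real.log X ∧ EndsInPieces k x ℓ m) ∨
          ∃ z : ℕ, (z : ℝ) ≤ η * Real.log X ∧ EndsInPhrases k x z) ∧
        (Int.gcd x k : ℝ) < X ^ (1 - δ)}).ncard : ℝ) ≤ ε * X := by
  simp only [pieces_iff, phrases_iff]
  exact fun ε δ hε hδ => K9h56.CX.gcd_complex hε hδ

end Pool.Agent.Results.MP_7f88e4_nt.ComplexCyclesAlmostAllK
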