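import Mathlib
import Pool.Agent.K9h56.SC.Count

/-!
# Short cycles of the `3x+k` maps for almost all `k`

Let `k` be prime to `6`. An orbit of the `3x+k` map which ends in a cycle with `p` elements consists of
multiples of the part of `k` composed of the primes which divide none of the numbers `2 ^ p - 3 ^ o`,
`o ≤ p`. There are few primes which divide one of these numbers for some `p ≤ P`. So for most `k`, and for
all `p` at once, the orbits which end in a cycle with `p` elements consist of multiples of the part of `k`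
composed of its primes larger than `B p ^ 3 log (p + 1)`.
-/

set_option autoImplicit false

namespace Pool.Agent.Results.MP_7f88e4_nt.ShortCyclesAlmostAllK

open Filter

/-- The `3x+k` map on the integers. -/
def T (k x : ℤ) : ℤ := if x % 2 = 0 then x / 2 else (3 * x + k) / 2

/-- The orbit of `x` under the `3x+k` map ends in a cycle with `p` elements. -/
def EndsIn (k x : ℤ) (p : ℕ) : Prop :=
  1 ≤ p ∧ ∃ m : ℕ, Function.minimalPeriod (T k) ((T k)^[m] x) = p

/-- For every `ε > 0` there is `B` such that for all but `ε X` of the `k` prime to `6` with `|k| ≤ X`: if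
the orbit of `x` ends in a cycle with `p` elements then `x` is divisible by all prime powers `q ^ a` dividing
`k` with `q > B p ^ 3 log (p + 1)`. -/
theorem result :
    ∀ ε : ℝ, 0 < ε → ∃ B : ℝ, 0 < B ∧ ∀ X : ℝ, 1 ≤ X →
      (({k : ℤ | |(k : ℝ)| ≤ X ∧ IsCoprime k 6 ∧ ∃ (x : ℤ) (p : ℕ), EndsIn k x p ∧
        ∃ q : ℕ, q.Prime ∧ B * (p : ℝ) ^ 3 * Real.log (p + 1) < q ∧
          ∃ a : ℕ, (q : ℤ) ^ a ∣ k ∧ ¬ (q : ℤ) ^ a ∣ x}).ncard : ℝ) ≤ ε * X := by
  intro ε hε
  obtain ⟨B, hB, h⟩ := K9h56.SC.almost_all hε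
  exact ⟨B, hB, fun X hX => (h X hX).2⟩

end Pool.Agent.Results.MP_7f88e4_nt.ShortCyclesAlmostAllK
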