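import Mathlib
import Pool.Agent.K9h56.CX.Main

/-!
# For all primes `k` outside a thin set the simple cycles of the `3x+k` map come from the `3x+1` map

The parity word of a cycle with `p` elements is cut into words with small periods (for instance, the
`2 m` runs of an `m`-cycle), or into phrases in the sense of Lempel and Ziv (each phrase is a copy of an
earlier part of the word, plus one letter). For all primes `k` up to `K` but a power of `log K` of them,
every orbit which ends in a cycle with few periodic pieces or few phrases consists of multiples of `k`,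
that is, it is `k` times an orbit of the `3x+1` map.

Proof. The number of elements of such a cycle is bounded in terms of the number of pieces or phrases and of
`log |k|`: for the pieces by the subspace theorem (the starting theorem behind `PiecesUniformInK`), for
the phrases by a growth argument and the linear forms in `log 2`, `log 3`. An exceptional prime divides one
of the numbers `2 ^ p - 3 ^ o` with `p` up to this bound.
-/

set_option autoImplicit false

namespace Pool.Agent.Results.MP_7f88e4_nt.SimpleCyclesPrimeK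

open Filter

/-- The `3x+k` map on the integers. -/
def T (k x : ℤ) : ℤ := if x % 2 = 0 then x / 2 else (3 * x + k) / 2

/-- The parities of the terms of the orbit of `y`. -/
def par (k y : ℤ) (i : ℕ) : ℤ := (T k)^[i] y % 2

/-- The word `w 0, ..., w (n-1)` is a concatenation of `m` words (cut at `0 = t 0 ≤ t 1 ≤ ... ≤ t m = n`)
each of which has a period `π` with `1 ≤ π ≤ ℓ`. -/
def Pieces (w : ℕ → ℤ) (n ℓ m : ℕ) : Prop :=
  ∃ t : ℕ → ℕ, t 0 = 0 ∧ t m = n ∧ (∀ i < m, t i ≤ t (i + 1)) ∧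
    ∀ i < m, ∃ π, 1 ≤ π ∧ π ≤ ℓ ∧ ∀ j, t i ≤ j → j + π < t (i + 1) → w (j + π) = w j

/-- The word `w 0, ..., w (n-1)` is the concatenation of `z` nonempty phrases (cut at
`0 = t 0 < t 1 < ... < t z = n`), each of which consists of one letter, or is such that the word which
remains if its last letter is deleted occurs in `w` also from an earlier position `j < t s` on (the two
occurrences may overlap). -/
def Phrases (w : ℕ → ℤ) (n z : ℕ) : Prop :=
  ∃ t : ℕ → ℕ, t 0 = 0 ∧ t z = n ∧ ∀ s < z, t s < t (s + 1) ∧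
    (t (s + 1) = t s + 1 ∨ ∃ j < t s, ∀ i, t s + i + 1 < t (s + 1) → w (t s + i) = w (j + i))

/-- The orbit of `x` under the `3x+k` map ends in a cycle with `p` elements, one of which is `y`. -/
def EndsAt (k x y : ℤ) (p : ℕ) : Prop :=
  1 ≤ p ∧ Function.minimalPeriod (T k) y = p ∧ ∃ j : ℕ, (T k)^[j] x = y

/-- The orbit of `x` ends in a cycle whose parity word (from some element on) is a concatenation of `m`
words with periods at most `ℓ`. -/
def EndsInPieces (k x : ℤ) (ℓ m : ℕ) : Prop :=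
  ∃ (y : ℤ) (p : ℕ), EndsAt k x y p ∧ Pieces (par k y) p ℓ m

/-- The orbit of `x` ends in a cycle whose parity word, from an element of least absolute value on, is a
concatenation of `z` phrases. -/
def EndsInPhrases (k x : ℤ) (z : ℕ) : Prop :=
  ∃ (y : ℤ) (p : ℕ), EndsAt k x y p ∧ (∀ i : ℕ, |y| ≤ |(T k)^[i] y|) ∧ Phrases (par k y) p z

lemma pieces_iff {k x : ℤ} {ℓ m : ℕ} : EndsInPieces k x ℓ m ↔ K9h56.CX.InPieces k x ℓ m := by
  constructor
  · rintro ⟨y, p, ⟨hp, hy, j, rfl⟩, h⟩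
    exact ⟨j, p, hp, hy, h⟩
  · rintro ⟨j, p, hp, hy, h⟩
    exact ⟨_, p, ⟨hp, hy, j, rfl⟩, h⟩

lemma phrases_iff {k x : ℤ} {z : ℕ} : EndsInPhrases k x z ↔ K9h56.CX.InPhrases k x z := by
  constructor
  · rintro ⟨y, p, ⟨hp, hy, j, rfl⟩, hm, h⟩
    exact ⟨j, p, hp, hy, hm, h⟩
  · rintro ⟨j, p, hp, hy, hm, h⟩
    exact ⟨_, p, ⟨hp, hy, j, rfl⟩, hm, h⟩

/-- For every `δ > 0` there is `A` such that, for all `K ≥ 2`, `ℓ`, `m`, `z`, for all primes `3 < k ≤ K`
(and their negatives) with at most `A (e ^ (δ m) (ℓ + log K) ^ 3 + e ^ (2 z) (log K) ^ 3)` exceptions, every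
orbit which ends in a cycle whose parity word is a concatenation of `m` words with periods at most `ℓ`, or of
`z` phrases, consists of multiples of `k`, so that it is `k` times an orbit of the `3x+1` map. -/
theorem result :
    ∀ δ : ℝ, 0 < δ → ∃ A : ℝ, 0 < A ∧ ∀ (K : ℝ) (ℓ m z : ℕ), 2 ≤ K →
      ({k : ℤ | |(k : ℝ)| ≤ K ∧ k.natAbs.Prime ∧ IsCoprime k 6 ∧
        ∃ x, (EndsInPieces k x ℓ m ∨ EndsInPhrases k x z) ∧ ¬ k ∣ x}.ncard : ℝ) ≤
        A * (Real.exp (δ * m) * (ℓ + Real.log K) ^ 3 + Real.exp (2 * z) * (Real.log K) ^ 3) := by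
  simp only [pieces_iff, phrases_iff]
  intro δ hδ
  obtain ⟨A, hA, h1⟩ := K9h56.CX.prime_pieces hδ
  obtain ⟨B, hB, h2⟩ := K9h56.CX.prime_phrases
  refine ⟨A + B, by positivity, fun K ℓ m z hK => ?_⟩
  set S1 : Set ℤ := {k : ℤ | |(k : ℝ)| ≤ K ∧ k.natAbs.Prime ∧ IsCoprime k 6 ∧
    ∃ x, K9h56.CX.InPieces k x ℓ m ∧ ¬ k ∣ x} with hS1
  set S2 : Set ℤ := {k : ℤ | |(k : ℝ)| ≤ K ∧ k.natAbs.Prime ∧ IsCoprime k 6 ∧
    ∃ x, K9h56.CX.InPhrases k x z ∧ ¬ k ∣ x} with hS2
  have hfin : ({k : ℤ | |(k : ℝ)| ≤ K} : Set ℤ).Finite := by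
    refine (Set.finite_Icc (-⌊K⌋) ⌊K⌋).subset (fun k hk => ?_)
    have hk' : |(k : ℝ)| ≤ K := hk
    rw [abs_le] at hk'
    constructor
    · rw [neg_le]
      exact Int.le_floor.2 (by push_cast; linarith)
    · exact Int.le_floor.2 hk'.2
  have hsub : {k : ℤ | |(k : ℝ)| ≤ K ∧ k.natAbs.Prime ∧ IsCoprime k 6 ∧
      ∃ x, (K9h56.CX.InPieces k x ℓ m ∨ K9h56.CX.InPhrases k x z) ∧ ¬ k ∣ x} ⊆ S1 ∪ S2 := by
    rintro k ⟨ha, hb, hc, x, hx | hx, hd⟩
    · exact Or.inl ⟨ha, hb, hc, x, hx, hd⟩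
    · exact Or.inr ⟨ha, hb, hc, x, hx, hd⟩
  have hfin2 : (S1 ∪ S2).Finite := hfin.subset (by
    rintro k (hk | hk)
    · exact hk.1
    · exact hk.1)
  have h3 : (({k : ℤ | |(k : ℝ)| ≤ K ∧ k.natAbs.Prime ∧ IsCoprime k 6 ∧
      ∃ x, (K9h56.CX.InPieces k x ℓ m ∨ K9h56.CX.InPhrases k x z) ∧ ¬ k ∣ x}.ncard : ℕ) : ℝ) ≤
      (S1.ncard : ℝ) + S2.ncard := by
    exact_mod_cast (Set.ncard_le_ncard hsub hfin2).trans (Set.ncard_union_le S1 S2)
  have h4 := h1 K ℓ m hK
  have h5 := h2 K z hK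
  have hlK : 0 ≤ Real.log K := Real.log_nonneg (by linarith)
  have h6 : 0 ≤ Real.exp (δ * m) * ((ℓ : ℝ) + Real.log K) ^ 3 := by positivity
  have h7 : 0 ≤ Real.exp (2 * z) * (Real.log K) ^ 3 := by positivity
  nlinarith

end Pool.Agent.Results.MP_7f88e4_nt.SimpleCyclesPrimeK
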